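import Mathlib

/-!
Definitions for MP_c73427_an: free locally convex spaces, multi-reflexive spaces, Schwartz spaces.
-/

namespace Pool.Agent.MP_c73427_an

universe u v w w₁ w₂

/-- `ι : X → V` exhibits the locally convex space `V` as the free locally convex space over `X`:
`ι` is a topological embedding and every continuous map from `X` to a Hausdorff real locally
convex space `E` has exactly one extension to a continuous linear map `V → E`. -/
def IsFreeLCS {X : Type u} [TopologicalSpace X]
    {V : Type v} [AddCommGroup V] [Module ℝ V] [TopologicalSpace V] (ι : X → V) : Prop :=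
  Topology.IsEmbedding ι ∧
    ∀ (E : Type w) [AddCommGroup E] [Module ℝ E] [TopologicalSpace E] [IsTopologicalAddGroup E]
      [ContinuousSMul ℝ E] [LocallyConvexSpace ℝ E] [T2Space E] (f : X → E),
      Continuous f → ∃! g : V →L[ℝ] E, ∀ x, g (ι x) = f x

/-- `E` is linearly and topologically isomorphic to a linear subspace of a product of
reflexive Banach spaces. -/
def IsMultiReflexive (E : Type v) [AddCommGroup E] [Module ℝ E] [TopologicalSpace E] : Prop :=
  ∃ (I : Type w₁) (R : I → Type w₂) (_ : ∀ i, NormedAddCommGroup (R i))
    (_ : ∀ i, NormedSpace ℝ (R i)),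
    (∀ i, CompleteSpace (R i)) ∧
    (∀ i, Function.Surjective (NormedSpace.inclusionInDoubleDual ℝ (R i))) ∧
    ∃ j : E →ₗ[ℝ] (∀ i, R i), Topology.IsEmbedding j

/-- Every continuous linear map from `E` to a Banach space is compact, that is, sends some
neighbourhood of zero into a compact set. -/
def IsSchwartz (E : Type v) [AddCommGroup E] [Module ℝ E] [TopologicalSpace E] : Prop :=
  ∀ (F : Type w) [NormedAddCommGroup F] [NormedSpace ℝ F] [CompleteSpace F] (T : E →L[ℝ] F),
    IsCompactOperator T

end Pool.Agent.MP_c73427_an
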