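import Mathlib

/-!
The canonical quotient map from `ℓ¹(F)` onto a Banach space `F` has a continuous right inverse.
-/

namespace Pool.Agent.MP_c73427_an

open Filter Topology

universe w

/-- The real space `ℓ¹(Γ)`. -/
abbrev L1 (Γ : Type w) : Type w := lp (fun _ : Γ => ℝ) 1

section synth

variable {Γ : Type*} {F : Type*} [NormedAddCommGroup F] [NormedSpace ℝ F] [CompleteSpace F]

/-- The operator `a ↦ ∑ a γ • v γ`. -/
noncomputable def synth (v : Γ → F) (hv : ∀ γ, ‖v γ‖ ≤ 1) : L1 Γ →L[ℝ] F :=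
  (lp.tsumCLM ℝ Γ F).comp
    (lp.mapCLM 1 (fun γ : Γ => ContinuousLinearMap.toSpanSingleton ℝ (v γ)) zero_le_one
      (fun γ => by simpa using hv γ))

lemma synth_apply (v : Γ → F) (hv : ∀ γ, ‖v γ‖ ≤ 1) (a : L1 Γ) :
    synth v hv a = ∑' γ, a γ • v γ := rfl

lemma synth_single [DecidableEq Γ] (v : Γ → F) (hv : ∀ γ, ‖v γ‖ ≤ 1) (γ : Γ) (c : ℝ) :
    synth v hv (lp.single 1 γ c) = c • v γ := by
  rw [synth_apply, tsum_eq_single γ]
  · simp
  · intro b hb
    simp [hb]

lemma norm_synth_le (v : Γ → F) (hv : ∀ γ, ‖v γ‖ ≤ 1) (a : L1 Γ) : ‖synth v hv a‖ ≤ ‖a‖ := by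
  have h1 : ‖synth v hv‖ ≤ 1 := by
    refine (ContinuousLinearMap.opNorm_comp_le _ _).trans ?_
    have h2 := lp.norm_tsumCLM_le (α := Γ) (𝕜 := ℝ) (E := F)
    have h3 := lp.norm_mapCLM_le 1
      (fun γ : Γ => ContinuousLinearMap.toSpanSingleton ℝ (v γ)) zero_le_one
      (fun γ => by simpa using hv γ)
    calc _ ≤ 1 * 1 := mul_le_mul h2 h3 (norm_nonneg _) zero_le_one
      _ = 1 := one_mul _
  simpa using (synth v hv).le_of_opNorm_le h1 a

end synth

section lifting

variable {A F : Type*} [NormedAddCommGroup A] [NormedSpace ℝ A] [CompleteSpace A]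
  [NormedAddCommGroup F] [NormedSpace ℝ F]

/-- Bartle and Graves, in the form needed here. -/
lemma exists_continuous_rightInverse (Q : A →L[ℝ] F)
    (hQ : ∀ y : F, ∃ a : A, Q a = y ∧ ‖a‖ ≤ ‖y‖) :
    ∃ h : F → A, Continuous h ∧ ∀ y, Q (h y) = y := by
  obtain ⟨s, hs⟩ : ∃ s : C(F, A), ∀ y, s y ∈ {a : A | ‖Q a - y‖ < 1 / 2 ∧ ‖a‖ < ‖y‖ + 1 / 2} := by
    apply exists_continuous_forall_mem_convex_of_local_const
    · intro y
      have h1 : Convex ℝ {a : A | ‖Q a - y‖ < 1 / 2} := by
        have := (convex_ball y (1 / 2 : ℝ)).linear_preimage (Q : A →ₗ[ℝ] F)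
        simpa [Set.preimage, dist_eq_norm] using this
      have h2 : Convex ℝ {a : A | ‖a‖ < ‖y‖ + 1 / 2} := by
        have := convex_ball (0 : A) (‖y‖ + 1 / 2)
        simpa [Metric.ball, dist_eq_norm] using this
      exact h1.inter h2
    · intro x
      obtain ⟨a, ha, hn⟩ := hQ x
      refine ⟨a, ?_⟩
      filter_upwards [Metric.ball_mem_nhds x (by norm_num : (0 : ℝ) < 1 / 2)] with y hy
      rw [Metric.mem_ball, dist_comm, dist_eq_norm] at hy
      refine ⟨by rwa [ha], ?_⟩
      have := norm_sub_norm_le x y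
      linarith
  set r : F → F := fun y => (2 : ℝ) • (y - Q (s y)) with hr
  have hrc : Continuous r := by
    have := s.continuous
    fun_prop
  have hr1 : ∀ y, ‖r y‖ ≤ 1 := by
    intro y
    have := (hs y).1
    rw [norm_sub_rev] at this
    simp only [hr, norm_smul, Real.norm_ofNat]
    linarith
  have hit1 : ∀ n y, ‖r^[n + 1] y‖ ≤ 1 := by
    intro n y
    rw [Function.iterate_succ_apply']
    exact hr1 _
  set t : ℕ → F → A := fun n y => (1 / 2 : ℝ) ^ (n + 1) • s (r^[n + 1] y) with ht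
  have htb : ∀ n y, ‖t n y‖ ≤ (1 / 2 : ℝ) ^ n := by
    intro n y
    have h1 := (hs (r^[n + 1] y)).2
    have h2 := hit1 n y
    have h3 : (0 : ℝ) < (1 / 2 : ℝ) ^ n := by positivity
    simp only [ht, norm_smul, norm_pow, Real.norm_eq_abs]
    rw [abs_of_pos (by norm_num : (0 : ℝ) < 1 / 2), pow_succ]
    nlinarith
  have htc : ∀ n, Continuous (t n) := by
    intro n
    have h1 := hrc.iterate (n + 1)
    have h2 := s.continuous
    simp only [ht]
    fun_prop
  have hsum : ∀ y, Summable fun n => t n y := fun y =>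
    Summable.of_norm_bounded summable_geometric_two (fun n => htb n y)
  refine ⟨fun y => s y + ∑' n, t n y, ?_, ?_⟩
  · exact s.continuous.add (continuous_tsum htc summable_geometric_two htb)
  · intro y
    have hpart : ∀ N, Q (s y + ∑ n ∈ Finset.range N, t n y)
        = y - (1 / 2 : ℝ) ^ (N + 1) • r^[N + 1] y := by
      intro N
      induction N with
      | zero => simp [hr, smul_smul]
      | succ N ih =>
        rw [Finset.sum_range_succ, ← add_assoc, map_add, ih,
          Function.iterate_succ_apply' r (N + 1) y]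
        simp only [ht, map_smul, hr, smul_smul, smul_sub]
        have : (1 / 2 : ℝ) ^ (N + 1 + 1) * 2 = (1 / 2 : ℝ) ^ (N + 1) := by
          rw [pow_succ (1 / 2 : ℝ) (N + 1)]; ring
        rw [this]
        abel
    have h1 : Tendsto (fun N => Q (s y + ∑ n ∈ Finset.range N, t n y)) atTop
        (𝓝 (Q (s y + ∑' n, t n y))) :=
      (Q.continuous.tendsto _).comp (tendsto_const_nhds.add (hsum y).hasSum.tendsto_sum_nat)
    have h2 : Tendsto (fun N : ℕ => (1 / 2 : ℝ) ^ (N + 1) • r^[N + 1] y) atTop (𝓝 0) := by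
      refine squeeze_zero_norm (a := fun N => (1 / 2 : ℝ) ^ N) ?_
        (tendsto_pow_atTop_nhds_zero_of_lt_one (by norm_num) (by norm_num))
      intro N
      have h2 := hit1 N y
      have h3 : (0 : ℝ) < (1 / 2 : ℝ) ^ N := by positivity
      have h4 := norm_nonneg (r^[N + 1] y)
      simp only [norm_smul, norm_pow, Real.norm_eq_abs]
      rw [abs_of_pos (by norm_num : (0 : ℝ) < 1 / 2), pow_succ]
      nlinarith
    have h3 : Tendsto (fun N => Q (s y + ∑ n ∈ Finset.range N, t n y)) atTop (𝓝 y) := by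
      simp only [hpart]
      simpa using tendsto_const_nhds.sub h2
    exact tendsto_nhds_unique h1 h3

end lifting

/-- Every Banach space `F` is the image of `ℓ¹(F)` under a bounded operator which has a
continuous right inverse. -/
theorem exists_lifting (F : Type w) [NormedAddCommGroup F] [NormedSpace ℝ F] [CompleteSpace F] :
    ∃ (Q : L1 F →L[ℝ] F) (h : F → L1 F), Continuous h ∧ ∀ y, Q (h y) = y := by
  classical
  have hv : ∀ γ : F, ‖‖γ‖⁻¹ • γ‖ ≤ 1 := by
    intro γ
    rw [norm_smul, norm_inv, norm_norm]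
    exact inv_mul_le_one_of_le₀ le_rfl (norm_nonneg _)
  refine ⟨synth (fun γ : F => ‖γ‖⁻¹ • γ) hv, ?_⟩
  apply exists_continuous_rightInverse
  intro y
  refine ⟨lp.single 1 y ‖y‖, ?_, ?_⟩
  · rw [synth_single, smul_smul]
    by_cases hy : y = 0
    · simp [hy]
    · rw [mul_inv_cancel₀ (norm_ne_zero_iff.mpr hy), one_smul]
  · rw [lp.norm_single (by norm_num)]
    simp

end Pool.Agent.MP_c73427_an
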