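import Mathlib
import Pool.Agent.MP_c73427_an.Lifting

/-!
An operator into `ℓ¹(Γ)` dominated by an operator into a finite product of reflexive spaces
maps a neighbourhood of zero to a totally bounded set.
-/

namespace Pool.Agent.MP_c73427_an

open Filter Topology

/-- Every bounded sequence has a point lying in the closure of each convex set that contains
a tail of the sequence. -/
def HasWeakClusterPoints (R : Type*) [NormedAddCommGroup R] [NormedSpace ℝ R] : Prop :=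
  ∀ (y : ℕ → R) (M : ℝ), (∀ n, ‖y n‖ ≤ M) →
    ∃ z : R, ∀ D : Set R, Convex ℝ D → (∀ᶠ n in atTop, y n ∈ D) → z ∈ closure D

lemma exists_weak_limit {R : Type*} [NormedAddCommGroup R] [NormedSpace ℝ R]
    (hR : Function.Surjective (NormedSpace.inclusionInDoubleDual ℝ R))
    (U : Ultrafilter ℕ) (y : ℕ → R) (M : ℝ) (hM : ∀ n, ‖y n‖ ≤ M) :
    ∃ z : R, ∀ φ : StrongDual ℝ R, Tendsto (fun n => φ (y n)) U (𝓝 (φ z)) := by
  set Y : ℕ → WeakDual ℝ (StrongDual ℝ R) :=
    fun n => StrongDual.toWeakDual (NormedSpace.inclusionInDoubleDual ℝ R (y n)) with hY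
  have hK := WeakDual.isCompact_closedBall (0 : StrongDual ℝ (StrongDual ℝ R)) M
  obtain ⟨Φ, -, hΦ⟩ := hK.ultrafilter_le_nhds (U.map Y) (by
    rw [Ultrafilter.coe_map, le_principal_iff, mem_map]
    refine univ_mem' fun n => ?_
    have := (NormedSpace.double_dual_bound ℝ R (y n)).trans (hM n)
    simpa [hY] using this)
  obtain ⟨z, hz⟩ := hR (WeakDual.toStrongDual Φ)
  refine ⟨z, fun φ => ?_⟩
  have h1 : Tendsto Y U (𝓝 Φ) := hΦ
  have h2 := ((WeakDual.eval_continuous φ).tendsto Φ).comp h1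
  have h3 : Φ φ = φ z := by
    have : (WeakDual.toStrongDual Φ) φ = φ z := by rw [← hz]; rfl
    exact this
  rw [h3] at h2
  exact h2

lemma hasWeakClusterPoints_pi {ι : Type*} [Fintype ι] (R : ι → Type*)
    [∀ i, NormedAddCommGroup (R i)] [∀ i, NormedSpace ℝ (R i)]
    (hR : ∀ i, Function.Surjective (NormedSpace.inclusionInDoubleDual ℝ (R i))) :
    HasWeakClusterPoints (∀ i, R i) := by
  classical
  intro y M hM
  set U : Ultrafilter ℕ := Ultrafilter.of atTop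
  have hU : (U : Filter ℕ) ≤ atTop := Ultrafilter.of_le atTop
  choose z hz using fun i => exists_weak_limit (hR i) U (fun n => y n i) M
    (fun n => (norm_le_pi_norm (y n) i).trans (hM n))
  have hlim : ∀ φ : StrongDual ℝ (∀ i, R i), Tendsto (fun n => φ (y n)) U (𝓝 (φ z)) := by
    intro φ
    have hφ : ∀ x : ∀ i, R i, φ x = ∑ i, (φ.comp (ContinuousLinearMap.single ℝ R i)) (x i) := by
      intro x
      conv_lhs => rw [← Finset.univ_sum_single x]
      simp [map_sum]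
    simp only [hφ]
    exact tendsto_finsetSum _ fun i _ => hz i _
  refine ⟨z, fun D hD hyD => ?_⟩
  by_contra hzD
  obtain ⟨f, u, hfz, hfD⟩ := geometric_hahn_banach_point_closed hD.closure isClosed_closure hzD
  have h1 : ∀ᶠ n in (U : Filter ℕ), u ≤ f (y n) :=
    (hyD.filter_mono hU).mono fun n hn => (hfD _ (subset_closure hn)).le
  have h2 := ge_of_tendsto (hlim f) h1
  linarith

section tail

variable {Γ : Type*} [DecidableEq Γ]

/-- The mass of `a` outside the finite set `G`. -/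
noncomputable def tail (G : Finset Γ) (a : L1 Γ) : ℝ := ‖a - ∑ γ ∈ G, lp.single 1 γ (a γ)‖

lemma tail_eq (G : Finset Γ) (a : L1 Γ) : tail G a = ‖a‖ - ∑ γ ∈ G, |a γ| := by
  have := lp.norm_compl_sum_single (p := 1) (by simp) a G
  simpa [tail] using this

lemma tail_nonneg (G : Finset Γ) (a : L1 Γ) : 0 ≤ tail G a := norm_nonneg _

lemma tail_anti {G G' : Finset Γ} (h : G ⊆ G') (a : L1 Γ) : tail G' a ≤ tail G a := by
  rw [tail_eq, tail_eq]
  have := Finset.sum_le_sum_of_subset_of_nonneg (f := fun γ => |a γ|) h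
    (fun _ _ _ => abs_nonneg _)
  linarith

lemma exists_tail_lt (a : L1 Γ) {η : ℝ} (hη : 0 < η) : ∃ G : Finset Γ, tail G a < η := by
  have h := lp.hasSum_single (p := 1) (by simp) a
  rw [HasSum, Metric.tendsto_nhds] at h
  obtain ⟨G, hG⟩ := (h η hη).exists
  refine ⟨G, ?_⟩
  rwa [dist_comm, dist_eq_norm] at hG

lemma abs_synth_sub_le (g : Γ → ℝ) (hg : ∀ γ, ‖g γ‖ ≤ 1) (B : Finset Γ) (a : L1 Γ) :
    |synth g hg a - ∑ γ ∈ B, a γ * g γ| ≤ tail B a := by
  have h := norm_synth_le g hg (a - ∑ γ ∈ B, lp.single 1 γ (a γ))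
  rw [map_sub, map_sum] at h
  simpa only [synth_single, smul_eq_mul, Real.norm_eq_abs, tail] using h

lemma totallyBounded_of_tail {K : Set (L1 Γ)} (hK : ∀ a ∈ K, ‖a‖ ≤ 1)
    (h : ∀ ε > 0, ∃ G : Finset Γ, ∀ a ∈ K, tail G a ≤ ε) : TotallyBounded K := by
  rw [Metric.totallyBounded_iff]
  intro ε hε
  obtain ⟨G, hG⟩ := h (ε / 3) (by positivity)
  set P : (G → ℝ) → L1 Γ := fun c => ∑ γ : G, lp.single 1 (γ : Γ) (c γ) with hP
  have hPc : Continuous P := by
    refine continuous_finsetSum _ fun γ _ => ?_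
    exact (lp.isometry_single (E := fun _ : Γ => ℝ) (p := 1) (γ : Γ)).continuous.comp
      (continuous_apply γ)
  have hcomp : IsCompact (P '' Metric.closedBall 0 1) := (isCompact_closedBall 0 1).image hPc
  obtain ⟨t, ht, hcov⟩ := Metric.totallyBounded_iff.mp hcomp.totallyBounded (ε / 3) (by positivity)
  refine ⟨t, ht, fun a ha => ?_⟩
  have hmem : P (fun γ => a γ) ∈ P '' Metric.closedBall 0 1 := by
    refine ⟨_, ?_, rfl⟩
    rw [mem_closedBall_zero_iff, pi_norm_le_iff_of_nonneg zero_le_one]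
    intro γ
    exact (lp.norm_apply_le_norm (by simp) a (γ : Γ)).trans (hK a ha)
  have h1 := hcov hmem
  simp only [Set.mem_iUnion, Metric.mem_ball] at h1 ⊢
  obtain ⟨b, hb, hdist⟩ := h1
  refine ⟨b, hb, ?_⟩
  have h2 : dist a (P fun γ => a γ) ≤ ε / 3 := by
    have := hG a ha
    rw [tail, ← Finset.sum_coe_sort G] at this
    rwa [dist_eq_norm]
  have := dist_triangle a (P fun γ => a γ) b
  linarith

end tail

section hump

variable {Γ : Type*} [DecidableEq Γ] {L R : Type*} [AddCommGroup L] [Module ℝ L]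
  [NormedAddCommGroup R] [NormedSpace ℝ R]

lemma tail_step (hR : HasWeakClusterPoints R) (T : L →ₗ[ℝ] R) (H : L →ₗ[ℝ] L1 Γ) {r : ℝ}
    (hr : 0 < r) (hb : ∀ u, ‖T u‖ < r → ‖H u‖ < 1) {t : ℝ} (ht : 0 < t) (G₀ : Finset Γ)
    (hG₀ : ∀ u, ‖T u‖ < r → tail G₀ (H u) ≤ t) :
    ∃ G : Finset Γ, ∀ u, ‖T u‖ < r → tail G (H u) ≤ 3 / 4 * t := by
  classical
  by_contra hcon
  push Not at hcon
  choose uu huu1 huu2 using hcon
  choose nxt hnxt using fun G : Finset Γ => exists_tail_lt (H (uu G)) (by positivity : 0 < t / 16)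
  obtain ⟨G, hG0, hGs⟩ : ∃ G : ℕ → Finset Γ, G 0 = G₀ ∧ ∀ n, G (n + 1) = G n ∪ nxt (G n) :=
    ⟨fun n => Nat.rec G₀ (fun _ G' => G' ∪ nxt G') n, rfl, fun _ => rfl⟩
  have hmono : Monotone G := monotone_nat_of_le_succ fun n => by
    rw [hGs]; exact Finset.subset_union_left
  set u : ℕ → L := fun n => uu (G n) with hu
  have hu1 : ∀ n, ‖T (u n)‖ < r := fun n => huu1 _
  have hu2 : ∀ n, 3 / 4 * t < tail (G n) (H (u n)) := fun n => huu2 _
  have hu3 : ∀ n, tail (G (n + 1)) (H (u n)) < t / 16 := fun n =>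
    (tail_anti (by rw [hGs]; exact Finset.subset_union_right) _).trans_lt (hnxt (G n))
  have hu4 : ∀ n, tail (G 0) (H (u n)) ≤ t := fun n => hG0 ▸ hG₀ _ (hu1 n)
  let sg : ℕ → Γ → ℝ := fun (n : ℕ) (γ : Γ) =>
    if (0 : ℝ) ≤ (H (u n) : L1 Γ) γ then (1 : ℝ) else -1
  let g : ℕ → Γ → ℝ := fun (k : ℕ) (γ : Γ) =>
    if γ ∈ G k then (0 : ℝ) else
      if h : ∃ m : ℕ, γ ∈ G (m + 1) then sg (Nat.find h) γ else 0
  have hg : ∀ k γ, ‖g k γ‖ ≤ 1 := by
    intro k γ
    simp only [g, sg]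
    split_ifs <;> simp
  have hbig : ∀ k n, k ≤ n → 3 / 8 * t ≤ synth (g k) (hg k) (H (u n)) := by
    intro k n hkn
    set a := H (u n) with ha
    have h1 := abs_synth_sub_le (g k) (hg k) (G (n + 1)) a
    have hs1 : G n ⊆ G (n + 1) := hmono (Nat.le_succ n)
    have hs0 : G 0 ⊆ G n := hmono (Nat.zero_le n)
    have e1 : ∑ γ ∈ G (n + 1), a γ * g k γ
        = ∑ γ ∈ G (n + 1) \ G n, a γ * g k γ + (∑ γ ∈ G n \ G 0, a γ * g k γ
          + ∑ γ ∈ G 0, a γ * g k γ) := by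
      rw [Finset.sum_sdiff hs0, Finset.sum_sdiff hs1]
    have e2 : ∑ γ ∈ G 0, a γ * g k γ = 0 := by
      refine Finset.sum_eq_zero fun γ hγ => ?_
      have : γ ∈ G k := hmono (Nat.zero_le k) hγ
      simp [g, this]
    have e3 : ∑ γ ∈ G (n + 1) \ G n, a γ * g k γ = ∑ γ ∈ G (n + 1) \ G n, |a γ| := by
      refine Finset.sum_congr rfl fun γ hγ => ?_
      rw [Finset.mem_sdiff] at hγ
      have hk : γ ∉ G k := fun h => hγ.2 (hmono hkn h)
      have hex : ∃ m, γ ∈ G (m + 1) := ⟨n, hγ.1⟩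
      have hfind : Nat.find hex = n := by
        rw [Nat.find_eq_iff]
        exact ⟨hγ.1, fun m hm h => hγ.2 (hmono (Nat.succ_le_of_lt hm) h)⟩
      simp only [g, sg, if_neg hk, dif_pos hex, hfind, ← ha]
      split_ifs with hs
      · rw [abs_of_nonneg hs, mul_one]
      · rw [abs_of_neg (lt_of_not_ge hs)]; ring
    have e4 : -∑ γ ∈ G n \ G 0, |a γ| ≤ ∑ γ ∈ G n \ G 0, a γ * g k γ := by
      rw [← Finset.sum_neg_distrib]
      refine Finset.sum_le_sum fun γ _ => ?_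
      have h2 : |a γ * g k γ| ≤ |a γ| := by
        rw [abs_mul]
        exact mul_le_of_le_one_right (abs_nonneg _) (hg k γ)
      exact (abs_le.mp h2).1
    have e5 : ∑ γ ∈ G (n + 1) \ G n, |a γ| = tail (G n) a - tail (G (n + 1)) a := by
      rw [tail_eq, tail_eq, ← Finset.sum_sdiff hs1]; ring
    have e6 : ∑ γ ∈ G n \ G 0, |a γ| = tail (G 0) a - tail (G n) a := by
      rw [tail_eq, tail_eq, ← Finset.sum_sdiff hs0]; ring
    have h2 := (abs_le.mp h1).1
    have h3 := hu2 n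
    have h4 := hu3 n
    have h5 := hu4 n
    rw [← ha] at h3 h4 h5
    linarith
  have hsmall : ∀ (a : L1 Γ) (η : ℝ), 0 < η → ∃ k, |synth (g k) (hg k) a| < η := by
    intro a η hη
    obtain ⟨B, hB⟩ := exists_tail_lt a hη
    obtain ⟨k, hk⟩ : ∃ k, ∀ γ ∈ B, (∃ m, γ ∈ G (m + 1)) → γ ∈ G k := by
      have : ∀ γ : Γ, ∃ k, (∃ m, γ ∈ G (m + 1)) → γ ∈ G k := by
        intro γ
        by_cases h : ∃ m, γ ∈ G (m + 1)
        · obtain ⟨m, hm⟩ := h
          exact ⟨m + 1, fun _ => hm⟩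
        · exact ⟨0, fun h' => absurd h' h⟩
      choose κ hκ using this
      exact ⟨B.sup κ, fun γ hγ h => hmono (Finset.le_sup hγ) (hκ γ h)⟩
    refine ⟨k, ?_⟩
    have h1 := abs_synth_sub_le (g k) (hg k) B a
    have e : ∑ γ ∈ B, a γ * g k γ = 0 := by
      refine Finset.sum_eq_zero fun γ hγ => ?_
      by_cases h : ∃ m, γ ∈ G (m + 1)
      · simp [g, hk γ hγ h]
      · simp only [g, dif_neg h]
        simp
    rw [e, sub_zero] at h1
    exact h1.trans_lt hB
  obtain ⟨z, hz⟩ := hR (fun n => T (u n)) r (fun n => (hu1 n).le)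
  have happ : ∀ k, ∃ c : L, 3 / 8 * t ≤ synth (g k) (hg k) (H c) ∧ ‖T c - z‖ < t / 16 * r := by
    intro k
    have hconv : Convex ℝ (T '' {c : L | 3 / 8 * t ≤ synth (g k) (hg k) (H c)}) := by
      refine Convex.linear_image ?_ T
      exact (convex_Ici (3 / 8 * t)).linear_preimage
        ((synth (g k) (hg k) : L1 Γ →ₗ[ℝ] ℝ).comp H)
    have hev : ∀ᶠ n in atTop, T (u n) ∈ T '' {c : L | 3 / 8 * t ≤ synth (g k) (hg k) (H c)} :=
      (eventually_ge_atTop k).mono fun n hn => ⟨u n, hbig k n hn, rfl⟩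
    have hcl := hz _ hconv hev
    rw [Metric.mem_closure_iff] at hcl
    obtain ⟨_, ⟨c, hc, rfl⟩, hdist⟩ := hcl (t / 16 * r) (by positivity)
    exact ⟨c, hc, by rwa [dist_comm, dist_eq_norm] at hdist⟩
  choose c hc1 hc2 using happ
  obtain ⟨k, hk⟩ := hsmall (H (c 0)) (t / 8) (by positivity)
  have h1 : ‖T (c k - c 0)‖ < t / 8 * r := by
    have : T (c k - c 0) = (T (c k) - z) - (T (c 0) - z) := by rw [map_sub]; abel
    rw [this]
    have h2 := norm_sub_le (T (c k) - z) (T (c 0) - z)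
    have h3 := hc2 k
    have h4 := hc2 0
    linarith
  have h2 : ‖H (c k - c 0)‖ < t / 8 := by
    have h3 := hb ((8 / t) • (c k - c 0)) (by
      rw [map_smul, norm_smul, Real.norm_of_nonneg (by positivity), div_mul_eq_mul_div,
        div_lt_iff₀ ht]
      linarith)
    rw [map_smul, norm_smul, Real.norm_of_nonneg (by positivity), div_mul_eq_mul_div,
      div_lt_iff₀ ht] at h3
    linarith
  have h3 := norm_synth_le (g k) (hg k) (H (c k - c 0))
  rw [map_sub H, map_sub, Real.norm_eq_abs, ← map_sub H] at h3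
  have h4 := (abs_le.mp h3).2
  have h5 := (abs_lt.mp hk).2
  have h6 := hc1 k
  linarith

theorem totallyBounded_image (hR : HasWeakClusterPoints R) (T : L →ₗ[ℝ] R) (H : L →ₗ[ℝ] L1 Γ)
    {r : ℝ} (hr : 0 < r) (hb : ∀ u, ‖T u‖ < r → ‖H u‖ < 1) :
    TotallyBounded (H '' {u | ‖T u‖ < r}) := by
  have hP : ∀ n : ℕ, ∃ G : Finset Γ, ∀ u, ‖T u‖ < r → tail G (H u) ≤ (3 / 4 : ℝ) ^ n := by
    intro n
    induction n with
    | zero => exact ⟨∅, fun u hu => by simpa [tail] using (hb u hu).le⟩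
    | succ n ih =>
      obtain ⟨G, hG⟩ := ih
      obtain ⟨G', hG'⟩ := tail_step hR T H hr hb (by positivity) G hG
      exact ⟨G', fun u hu => by rw [pow_succ']; exact hG' u hu⟩
  apply totallyBounded_of_tail
  · rintro _ ⟨u, hu, rfl⟩
    exact (hb u hu).le
  · intro ε hε
    obtain ⟨n, hn⟩ := exists_pow_lt_of_lt_one hε (by norm_num : (3 / 4 : ℝ) < 1)
    obtain ⟨G, hG⟩ := hP n
    refine ⟨G, ?_⟩
    rintro _ ⟨u, hu, rfl⟩
    exact (hG u hu).trans hn.le

end hump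

end Pool.Agent.MP_c73427_an
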