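import Mathlib
import Pool.Agent.MP_c73427_an.Defs
import Pool.Agent.MP_c73427_an.Schur

/-!
A multi-reflexive free locally convex space is a Schwartz space.
-/

namespace Pool.Agent.MP_c73427_an

open Filter Topology

universe u v w w₁ w₂

/-- Every continuous linear map from a multi-reflexive space to `ℓ¹(Γ)` is compact. -/
theorem isCompactOperator_of_isMultiReflexive {L : Type v} [AddCommGroup L] [Module ℝ L]
    [TopologicalSpace L] [IsTopologicalAddGroup L] [ContinuousSMul ℝ L]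
    (hL : IsMultiReflexive.{v, w₁, w₂} L) {Γ : Type w}
    (H : L →L[ℝ] L1 Γ) : IsCompactOperator H := by
  classical
  obtain ⟨I, R, _, _, -, hR, j, hj⟩ := hL
  have h0 : H ⁻¹' Metric.ball 0 1 ∈ 𝓝 (0 : L) :=
    H.continuous.continuousAt.preimage_mem_nhds (by
      rw [map_zero]; exact Metric.ball_mem_nhds 0 one_pos)
  rw [hj.isInducing.nhds_eq_comap, map_zero, mem_comap] at h0
  obtain ⟨W, hW, hWH⟩ := h0
  rw [nhds_pi, Filter.mem_pi] at hW
  obtain ⟨s, hs, V, hV, hVW⟩ := hW
  have := hs.fintype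
  have hex : ∀ i, ∃ ρ > 0, Metric.ball (0 : R i) ρ ⊆ V i := fun i =>
    Metric.mem_nhds_iff.mp (hV i)
  choose ρ hρ hρV using hex
  obtain ⟨r, hr, hrρ⟩ : ∃ r > 0, ∀ i : s, r ≤ ρ i := by
    rcases isEmpty_or_nonempty s with h | h
    · exact ⟨1, one_pos, fun i => h.elim i⟩
    · obtain ⟨i, hi⟩ := Finite.exists_min (fun i : s => ρ i)
      exact ⟨ρ i, hρ i, hi⟩
  let T : L →ₗ[ℝ] (∀ i : s, R i) :=
    LinearMap.pi fun i : s => (LinearMap.proj (i : I)).comp j
  have hTc : Continuous T :=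
    continuous_pi fun i : s => (continuous_apply (i : I)).comp hj.continuous
  have hb : ∀ x, ‖T x‖ < r → ‖(H : L →ₗ[ℝ] L1 Γ) x‖ < 1 := by
    intro x hx
    have h1 : j x ∈ W := by
      apply hVW
      intro i hi
      apply hρV
      rw [mem_ball_zero_iff]
      exact ((norm_le_pi_norm (T x) ⟨i, hi⟩).trans_lt hx).trans_le (hrρ ⟨i, hi⟩)
    simpa using hWH h1
  have htb := totallyBounded_image (hasWeakClusterPoints_pi (fun i : s => R i) fun i => hR i)
    T (H : L →ₗ[ℝ] L1 Γ) hr hb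
  rw [isCompactOperator_iff_exists_mem_nhds_isCompact_closure_image]
  refine ⟨{x | ‖T x‖ < r}, ?_, htb.closure.isCompact_of_isClosed isClosed_closure⟩
  exact (isOpen_lt hTc.norm continuous_const).mem_nhds (by simpa using hr)

theorem isSchwartz_of_isMultiReflexive {X : Type u} [TopologicalSpace X]
    {L : Type v} [AddCommGroup L] [Module ℝ L] [TopologicalSpace L] [IsTopologicalAddGroup L]
    [ContinuousSMul ℝ L] (ι : X → L) (hι : IsFreeLCS.{u, v, w} ι)
    (hL : IsMultiReflexive.{v, w₁, w₂} L) : IsSchwartz.{v, w} L := by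
  intro F _ _ _ T
  obtain ⟨Q, h, hc, hQ⟩ := exists_lifting F
  have hf : Continuous fun x => T (ι x) := T.continuous.comp hι.1.continuous
  obtain ⟨H, hH, -⟩ := hι.2 (L1 F) (fun x => h (T (ι x))) (hc.comp hf)
  have hT : T = Q.comp H :=
    (hι.2 F (fun x => T (ι x)) hf).unique (fun _ => rfl) (fun x => by simp [hH, hQ])
  rw [hT]
  exact (isCompactOperator_of_isMultiReflexive hL H).clm_comp Q

end Pool.Agent.MP_c73427_an
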